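import Pool.Agent.H8.DS.TarA

/-!
CAT: the number of words of length `k m` if the words of length `m` are in `V`.
-/

namespace DS

open Set MeasureTheory

theorem pf_CAT : T_CAT := by
  intro S B F m k I V hV
  induction k with
  | zero =>
    have hsub : {w : List B | w.length = 0 * m ∧ ∃ t ∈ I, (F.sys t).Occ w} ⊆ {[]} := by
      rintro w ⟨hw, _⟩
      rw [Nat.zero_mul] at hw
      exact List.eq_nil_of_length_eq_zero hw
    refine ⟨(Set.finite_singleton _).subset hsub, ?_⟩
    calc _ ≤ ({[]} : Set (List B)).ncard := Set.ncard_le_ncard hsub (Set.finite_singleton _)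
      _ = 1 := Set.ncard_singleton _
      _ = V.card ^ 0 := (pow_zero _).symm
  | succ k ih =>
    obtain ⟨hfin, hcard⟩ := ih
    set W : Set (List B) := {w : List B | w.length = k * m ∧ ∃ t ∈ I, (F.sys t).Occ w} with hW
    have hpf : ((V : Set (List B)) ×ˢ W).Finite := V.finite_toSet.prod hfin
    have hsub : {w : List B | w.length = (k + 1) * m ∧ ∃ t ∈ I, (F.sys t).Occ w} ⊆
        (fun p : List B × List B => p.1 ++ p.2) '' ((V : Set (List B)) ×ˢ W) := by
      rintro w ⟨hw, t, ht, y, y'', hgo⟩
      have hlen1 : (w.take m).length = m := by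
        rw [List.length_take, hw]
        exact min_eq_left (by nlinarith)
      have hlen2 : (w.drop m).length = k * m := by
        rw [List.length_drop, hw]
        have : (k + 1) * m = k * m + m := by ring
        omega
      rw [← List.take_append_drop m w, Sys.Go_append] at hgo
      obtain ⟨y', h1, h2⟩ := hgo
      exact ⟨(w.take m, w.drop m), ⟨hV t ht _ hlen1 ⟨y, y', h1⟩, hlen2, t, ht, y', y'', h2⟩,
        List.take_append_drop m w⟩
    refine ⟨(hpf.image _).subset hsub, ?_⟩
    calc _ ≤ ((fun p : List B × List B => p.1 ++ p.2) '' ((V : Set (List B)) ×ˢ W)).ncard :=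
          Set.ncard_le_ncard hsub (hpf.image _)
      _ ≤ ((V : Set (List B)) ×ˢ W).ncard := Set.ncard_image_le hpf
      _ = (V : Set (List B)).ncard * W.ncard := Set.ncard_prod
      _ = V.card * W.ncard := by rw [Set.ncard_coe_finset]
      _ ≤ V.card * V.card ^ k := Nat.mul_le_mul_left _ hcard
      _ = V.card ^ (k + 1) := by ring

end DS
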