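import Pool.Agent.H8.DS.TarG
import Pool.Agent.H8.DS.TarK

/-!
FCO: `FC` is locally affine.
-/

namespace DS

open Set Data

theorem pf_FCO (h1 : T_OPEN) : T_FCO := by
  intro C S _ X hX t n
  induction n with
  | zero =>
    intro y y' h
    refine ⟨1, one_pos, 1, one_pos, fun δ _ => ?_⟩
    simp only [Data.FC] at h ⊢
    subst h
    simp
  | succ n ih =>
    rintro y y' ⟨y₁, hh, hf, hc⟩
    obtain ⟨α₁, ha1, ε₁, he1, H1⟩ := h1 C S X hX t y y₁ hh
    obtain ⟨α₂, ha2, ε₂, he2, H2⟩ := ih y₁ y' hc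
    refine ⟨α₂ * α₁, by positivity, min ε₁ (ε₂ / α₁), lt_min he1 (div_pos he2 ha1),
      fun δ hδ => ?_⟩
    refine ⟨(y₁.1, y₁.2 + α₁ * δ), H1 δ (lt_of_lt_of_le hδ (min_le_left _ _)), hf, ?_⟩
    have h3 : |α₁ * δ| < ε₂ := by
      rw [abs_mul, abs_of_pos ha1]
      have := lt_of_lt_of_le hδ (min_le_right _ _)
      rwa [lt_div_iff₀ ha1, mul_comm] at this
    have h4 := H2 (α₁ * δ) h3
    rwa [← mul_assoc] at h4

end DS
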