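import Pool.Agent.H8.DS.TarG

/-!
NXU: there is always a further point, above and below.
-/

namespace DS

open Set Data

namespace H66NXU

variable {C S : Type}

theorem valid_of_pure (X : Data C S) (c : C) (z : ℝ × ℝ) (h : X.Pure c z) : X.Valid c z := by
  refine ⟨?_, h.2⟩
  rintro ⟨s, hs, g, hg, he | he⟩
  · exact h.1 ⟨s, hs, g, hg, 0, ⟨le_refl _, zero_le_one⟩, he⟩
  · exact h.1 ⟨s, hs, g, hg, 1, ⟨zero_le_one, le_refl _⟩, he⟩

/-- All points on the line through `z`, close to `z` and different from `z`, are pure. -/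
theorem near_pure (h1 : T_ISOL) [Finite S] (X : Data C S) (hX : X.Surface) (t : ℝ) (c : C)
    (z : ℝ × ℝ) (hz : X.Hopf c → z ≠ 0) :
    ∃ ε > 0, ∀ k : ℝ, k ≠ 0 → |k| < ε → X.Pure c (fwd t z k) := by
  obtain ⟨δ, hδ, H⟩ := h1 C S X hX c z hz
  have h1t : 0 < 1 + |t| := by positivity
  refine ⟨δ / (1 + |t|), by positivity, fun k hk hkε => ?_⟩
  rw [lt_div_iff₀ h1t] at hkε
  have hk0 : 0 ≤ |k| := abs_nonneg k
  have ht0 : 0 ≤ |t| := abs_nonneg t
  by_contra hnp
  obtain ⟨s, _, g, _, ξ, _, ξ', _, e1, e2⟩ := H (fwd t z k) (by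
    have : (fwd t z k).1 - z.1 = t * k := by unfold fwd; ring
    rw [this, abs_mul]
    nlinarith) (by
    have : (fwd t z k).2 - z.2 = k := by unfold fwd; ring
    rw [this]
    nlinarith) hnp
  apply hk
  have e1' := congrArg Prod.snd e1
  have e2' := congrArg Prod.snd e2
  simp only [act, Data.pt, fwd] at e1' e2'
  linarith

end H66NXU

open H66NXU in
theorem pf_NXU (h1 : T_ISOL) (h2 : T_STEX) : T_NXU := by
  intro C S _ X hX t P hP
  constructor
  · obtain ⟨c, z, r, hst, hz, hr⟩ := h2 C S X hX P hP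
    obtain ⟨ε, hε, H⟩ := near_pure h1 X hX t c z hz
    have hh : 0 < ε / 2 := by positivity
    refine ⟨(c, act (1, 0, 0) (fwd t z (ε / 2))), r * 1, c, z, r, ε / 2, (1, 0, 0), hst, hh,
      ?_, ?_, deck_one X hX c, rfl, rfl⟩
    · intro k hk1 hk2
      exact H k hk1.ne' (by rw [abs_of_pos hk1]; linarith)
    · exact valid_of_pure X c _ (H _ hh.ne' (by rw [abs_of_pos hh]; linarith))
  · obtain ⟨c, z⟩ := P
    obtain ⟨ε, hε, H⟩ := near_pure h1 X hX t c z hP.2
    have hh : 0 < ε / 2 := by positivity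
    have hz' : fwd t (fwd t z (-(ε / 2))) (ε / 2) = z := by
      rw [fwd_add, neg_add_cancel, fwd_zero]
    refine ⟨(c, fwd t z (-(ε / 2))), 1 * 1, c, fwd t z (-(ε / 2)), 1, ε / 2, (1, 0, 0),
      Start.pure c _ (H _ (by linarith) (by rw [abs_neg, abs_of_pos hh]; linarith)), hh,
      ?_, ?_, deck_one X hX c, ?_, rfl⟩
    · intro k hk1 hk2
      rw [fwd_add]
      exact H _ (by linarith) (by rw [abs_of_neg (by linarith)]; linarith)
    · rw [hz']; exact hP
    · rw [hz', act_one]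

end DS
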