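import Pool.Agent.H8.DS.TarA

/-!
SMALL: near almost every parameter only the words of that parameter occur.
-/

namespace DS

open Set MeasureTheory

theorem pf_SMALL (h1 : T_CONV) : T_SMALL := by
  intro S B _ F m
  set T : List B → Set ℝ := fun w => {t | (F.sys t).Occ w} with hT
  have hfin : {w : List B | w.length = m}.Finite := List.finite_length_eq B m
  refine ⟨⋃ w ∈ {w : List B | w.length = m}, frontier (T w), ?_, ?_⟩
  · rw [measure_biUnion_null_iff hfin.countable]
    intro w _
    exact (h1 S B F w).addHaar_frontier volume
  · intro t₀ ht₀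
    have key : ∀ w ∈ {w : List B | w.length = m},
        ∀ᶠ t in nhds t₀, (F.sys t).Occ w → (F.sys t₀).Occ w := by
      intro w hw
      by_cases hw0 : (F.sys t₀).Occ w
      · exact Filter.Eventually.of_forall fun _ _ => hw0
      · have hnf : t₀ ∉ frontier (T w) := fun h => ht₀ (mem_biUnion hw h)
        have hni : t₀ ∉ interior (T w) := fun h => hw0 (interior_subset (s := T w) h)
        have hnc : t₀ ∉ closure (T w) := by
          intro h
          exact hnf ⟨h, hni⟩
        have hopen : (closure (T w))ᶜ ∈ nhds t₀ := isClosed_closure.isOpen_compl.mem_nhds hnc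
        filter_upwards [hopen] with t ht htw
        exact absurd (subset_closure (s := T w) htw) ht
    have hall := (Filter.eventually_all_finite hfin).2 key
    obtain ⟨ε, hε, hb⟩ := Metric.eventually_nhds_iff.1 hall
    refine ⟨ε, hε, fun t ht w hw hocc => hb (by rwa [Real.dist_eq]) w hw hocc⟩

end DS
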